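import Pool.Agent.Y877.SxP

/-!
# Goldbach representations of almost all multiples of a small primorial, with one prime in an arbitrary set of primes
-/

set_option autoImplicit false

open Finset

namespace Pool.Agent.Results.MP_5d7b92_nt.AlmostAllMultiples

/-- the product of `1 - 1/q` over the primes `q ≤ y` -/
noncomputable def V (y : ℕ) : ℝ := ∏ q ∈ (Icc 1 y).filter Nat.Prime, (1 - 1 / (q : ℝ))

/-- the primes `p ≤ x` such that `π(p)` is prime -/
noncomputable def PP (x : ℕ) : Finset ℕ := (Icc 1 x).filter (fun p => p.Prime ∧ (Nat.primeCounting p).Prime)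

/-- the `p ∈ S` such that `a - p` is prime -/
def Rep (S : Finset ℕ) (a : ℕ) : Finset ℕ := S.filter (fun p => (a - p).Prime)

/-- For all `A`, `C` and `0 < ε ≤ 1` there is `K₀` such that for every `K₁` and every large `x`, every `y` between
`K₀ log log x` and `K₁ log log x`, with `M` the product of the primes `≤ y`, and every window `(g₀, g₀ + G]` with
`x ≤ M g₀`, `M (g₀ + G) ≤ 2 x`, `G ≥ x / (M log ^ C x)`: (1) for every set `S` of at least `x / log ^ A x` primes `p ≤ x`,
for all but at most `ε G` of the `g ≤ G` the number `M (g₀ + g) - p` is prime for at least `(1 - ε) #S / (V y log x)`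
elements `p` of `S`; (2) there are at least `x / (8 log ^ 2 x)` primes `p ≤ x` with `π(p)` prime, and the conclusion of (1)
holds for the set of all of them. -/
theorem result : ∀ (A C : ℕ) (ε : ℝ), 0 < ε → ε ≤ 1 → ∃ K₀ : ℕ, ∀ K₁ : ℕ, ∃ x₀ : ℕ, ∀ x : ℕ, x₀ ≤ x →
    ∀ y : ℕ, K₀ * Real.log (Real.log x) ≤ y → y ≤ K₁ * Real.log (Real.log x) →
    ∀ g₀ G : ℕ, x ≤ primorial y * g₀ → primorial y * (g₀ + G) ≤ 2 * x → (x : ℝ) ≤ primorial y * G * Real.log x ^ C →
    (∀ S : Finset ℕ, S ⊆ Icc 1 x → (∀ p ∈ S, p.Prime) → (x : ℝ) ≤ S.card * Real.log x ^ A →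
      (((Icc 1 G).filter (fun g => ((Rep S (primorial y * (g₀ + g))).card : ℝ) <
        (1 - ε) * (S.card / (V y * Real.log x)))).card : ℝ) ≤ ε * G) ∧
    (x : ℝ) / (8 * Real.log x ^ 2) ≤ ((PP x).card : ℝ) ∧
    (((Icc 1 G).filter (fun g => ((Rep (PP x) (primorial y * (g₀ + g))).card : ℝ) <
      (1 - ε) * ((PP x).card / (V y * Real.log x)))).card : ℝ) ≤ ε * G := by
  intro A C ε hε hε1
  obtain ⟨K₀, hK₀⟩ := Pool.Agent.Y877.SX.step_neg 1 (Or.inl rfl) (max A 3) C ε hε hε1
  refine ⟨K₀, fun K₁ => ?_⟩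
  obtain ⟨n1, hn1⟩ := Pool.Agent.Y877.SX.PPi_low
  obtain ⟨n2, hn2⟩ := hK₀ K₁
  obtain ⟨n3, hn3⟩ := Pool.Agent.H373R2.T7.ev_L' 8
  refine ⟨max n1 (max n2 n3), fun x hx y hy1 hy2 g₀ G hg0 hg1 hg2 => ?_⟩
  have b1 : n1 ≤ x := le_trans (le_max_left _ _) hx
  have b2 : n2 ≤ x := le_trans (le_trans (le_max_left _ _) (le_max_right _ _)) hx
  have b3 : n3 ≤ x := le_trans (le_trans (le_max_right _ _) (le_max_right _ _)) hx
  have hL := hn3 x b3
  have hlow : (x : ℝ) / (8 * Real.log x ^ 2) ≤ ((PP x).card : ℝ) := hn1 x b1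
  have main : ∀ S : Finset ℕ, S ⊆ Icc 1 x → (∀ p ∈ S, p.Prime) → (x : ℝ) ≤ S.card * Real.log x ^ (max A 3) →
      (((Icc 1 G).filter (fun g => ((Rep S (primorial y * (g₀ + g))).card : ℝ) <
        (1 - ε) * (S.card / (V y * Real.log x)))).card : ℝ) ≤ ε * G := by
    intro S hS hSp hSc
    have h1 := hn2 x b2 y hy1 hy2 S hS hSp hSc g₀ G (by rw [pow_one]; exact hg0) (by rw [pow_one]; exact hg1)
      (by rw [pow_one]; exact hg2)
    refine le_trans (le_of_eq ?_) h1
    congr 2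
    apply filter_congr
    intro g _
    simp only [pow_one, Nat.cast_one, one_mul]
    rfl
  refine ⟨fun S hS hSp hSc => main S hS hSp (hSc.trans ?_), hlow, main (PP x) (filter_subset _ _)
    (fun p hp => (mem_filter.1 hp).2.1) ?_⟩
  · apply mul_le_mul_of_nonneg_left _ (Nat.cast_nonneg _)
    exact pow_le_pow_right₀ (by linarith) (le_max_left _ _)
  · have h3 : Real.log x ^ 3 ≤ Real.log x ^ (max A 3) := pow_le_pow_right₀ (by linarith) (le_max_right _ _)
    refine le_trans ?_ (mul_le_mul_of_nonneg_left h3 (Nat.cast_nonneg _))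
    have hL0 : 0 < Real.log x := by linarith
    rw [div_le_iff₀ (by positivity)] at hlow
    have hc0 : (0 : ℝ) ≤ (PP x).card := Nat.cast_nonneg _
    calc (x : ℝ) ≤ (PP x).card * (8 * Real.log x ^ 2) := hlow
      _ ≤ (PP x).card * (Real.log x * Real.log x ^ 2) := by
          apply mul_le_mul_of_nonneg_left _ hc0
          exact mul_le_mul_of_nonneg_right hL (by positivity)
      _ = _ := by ring

end Pool.Agent.Results.MP_5d7b92_nt.AlmostAllMultiples
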