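import Pool.Agent.Y886.IXE

/-!
# The sharp order for index sets which are as large as the set of primes

The problem asks for representations `2 n = p + q` with primes `p`, `q` and a prime index `π(p)`. Here the
index runs through an arbitrary set `K` instead of the set of the primes.

For EVERY set `K` with at least `t / (log t) ^ B` elements up to `t` the number of the `n ≤ x` which are
represented is at least a constant times `x / log log log log x`; and this is sharp: there is a set `K`
whose counting function is the one of the primes, with an error of at most `t / (log t) ^ A` for every `A`,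
for which it is at most a constant times `x / log log log log x`.

Lower bound: the theorem of the Romanoff type of the starting files (`Pool.Agent.H197R2.PG`), which is
about arbitrary sets of odd integers of this size. Upper bound: `K` consists of indices of primes congruent
to one modulo the product of the primes up to a slowly increasing bound.
-/

set_option autoImplicit false

open Filter Topology

namespace Pool.Agent.Results.MP_5d7b92_nt.SharpOrderForIndexSets

/-- The number of the elements `k ≤ t` of `K` with `k ≥ 1`. -/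
noncomputable def count (K : Set ℕ) (t : ℕ) : ℕ := {k : ℕ | 1 ≤ k ∧ k ≤ t ∧ k ∈ K}.ncard

/-- The number of the integers `n`, `2 < n ≤ x`, for which there is a prime `p < 2 n` such that
`π(p) ∈ K` and `2 n - p` is prime. -/
noncomputable def represented (K : Set ℕ) (x : ℕ) : ℕ :=
  {n : ℕ | 2 < n ∧ n ≤ x ∧ ∃ p : ℕ, p.Prime ∧ p < 2 * n ∧ Nat.primeCounting p ∈ K ∧
    (2 * n - p).Prime}.ncard

open Pool.Agent.Y886.IXS in
lemma count_eq (K : Set ℕ) (t : ℕ) : count K t = cnt K t := by
  classical
  unfold count cnt
  rw [← Set.ncard_coe_finset]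
  congr 1
  ext k
  simp only [Set.mem_setOf_eq, Finset.coe_filter, Finset.mem_Icc]
  tauto

open Pool.Agent.Y886.IXS in
lemma represented_eq (K : Set ℕ) (x : ℕ) : represented K x = (rep K x).card := by
  classical
  unfold represented rep
  rw [← Set.ncard_coe_finset]
  congr 1
  ext n
  simp only [Set.mem_setOf_eq, Finset.coe_filter, Finset.mem_Icc]
  constructor
  · rintro ⟨h1, h2, h3⟩
    exact ⟨⟨by omega, h2⟩, h3⟩
  · rintro ⟨⟨h1, h2⟩, h3⟩
    exact ⟨by omega, h2, h3⟩

open Pool.Agent.Y886.IXS Finset in
lemma lower (B : ℕ) (K : Set ℕ) (h : ∀ᶠ t : ℕ in atTop, (t : ℝ) / Real.log t ^ B ≤ cnt K t) :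
    ∃ c : ℝ, 0 < c ∧ ∀ᶠ x : ℕ in atTop,
      c * (x / Real.log (Real.log (Real.log (Real.log x)))) ≤ (rep K x).card := by
  classical
  have hA : ∀ a ∈ {p : ℕ | p.Prime ∧ p ≠ 2 ∧ Nat.primeCounting p ∈ K}, 3 ≤ a ∧ a % 2 = 1 := by
    rintro a ⟨h1, h2, -⟩
    have h3 := h1.two_le
    rcases h1.eq_two_or_odd with h4 | h4
    · exact absurd h4 h2
    · exact ⟨by omega, h4⟩
  have hd : ∃ y0 : ℕ, ∀ y : ℕ, y0 ≤ y → ∃ S : Finset ℕ, S ⊆ Icc 1 y ∧
      (∀ a ∈ S, a ∈ {p : ℕ | p.Prime ∧ p ≠ 2 ∧ Nat.primeCounting p ∈ K}) ∧
      (y : ℝ) ≤ S.card * Real.log y ^ (B + 3) := by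
    have tL : Tendsto (fun N : ℕ => Real.log (N : ℝ)) atTop atTop :=
      Real.tendsto_log_atTop.comp tendsto_natCast_atTop_atTop
    have hpw : ∀ᶠ y : ℕ in atTop, 2 * Real.log y ^ (B + 2) ≤ (y : ℝ) := by
      have h0 := (isLittleO_log_rpow_rpow_atTop ((B + 2 : ℕ) : ℝ) (s := 1) (by norm_num)).bound
        (c := 1 / 2) (by norm_num)
      have h1 := (tendsto_natCast_atTop_atTop (R := ℝ)).eventually h0
      filter_upwards [h1, eventually_ge_atTop 1] with y hy hy1
      have hl : 0 ≤ Real.log y := Real.log_natCast_nonneg y
      rw [Real.rpow_natCast, Real.norm_of_nonneg (by positivity), Real.rpow_one,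
        Real.norm_of_nonneg (Nat.cast_nonneg _)] at hy
      linarith
    have ev := (Nat.tendsto_primeCounting.eventually (h.and (eventually_ge_atTop 2))).and
      (Pool.Agent.H197R2.PG.pi_lower.and ((tL.eventually_ge_atTop 2).and
        (hpw.and (eventually_ge_atTop 3))))
    obtain ⟨y0, hy0⟩ := eventually_atTop.1 ev
    refine ⟨y0, fun y hy => ?_⟩
    obtain ⟨⟨h1, h1'⟩, h2, h3, h4, h5⟩ := hy0 y hy
    set S : Finset ℕ := (Icc 1 y).filter (fun p => p.Prime ∧ p ≠ 2 ∧ Nat.primeCounting p ∈ K) with hS
    refine ⟨S, filter_subset _ _, fun a ha => (mem_filter.1 ha).2, ?_⟩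
    have hinj : cnt K (Nat.primeCounting y) ≤ S.card + 1 := by
      have hsub : ((Icc 1 (Nat.primeCounting y)).filter (· ∈ K)).image
          (fun k => Nat.nth Nat.Prime (k - 1)) ⊆ insert 2 S := by
        intro p hp
        obtain ⟨k, hk, rfl⟩ := mem_image.1 hp
        rw [mem_filter, mem_Icc] at hk
        have e1 : Nat.primeCounting (Nat.nth Nat.Prime (k - 1)) = k := by
          unfold Nat.primeCounting Nat.primeCounting'
          rw [Nat.count_succ, if_pos (Nat.prime_nth_prime _)]
          have := Nat.primeCounting'_nth_eq (k - 1)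
          unfold Nat.primeCounting' at this
          rw [this]
          omega
        have hpr := Nat.prime_nth_prime (k - 1)
        by_cases h2 : Nat.nth Nat.Prime (k - 1) = 2
        · exact mem_insert.2 (Or.inl h2)
        · apply mem_insert_of_mem
          rw [hS, mem_filter, mem_Icc]
          refine ⟨⟨hpr.one_lt.le, ?_⟩, hpr, h2, by rw [e1]; exact hk.2⟩
          by_contra hcon
          push Not at hcon
          have h6 : k ≤ Nat.primeCounting y := hk.1.2
          have h7 : Nat.nth Nat.Prime (k - 1) ≤ Y (Nat.primeCounting y) := by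
            rw [← pi_le_iff hpr, e1]
            exact h6
          have h8 : Y (Nat.primeCounting y) < Nat.nth Nat.Prime (Nat.primeCounting y) := by
            unfold Y
            have := (Nat.prime_nth_prime (Nat.primeCounting y)).pos
            omega
          have h9 : k - 1 < Nat.count Nat.Prime (y + 1) := by
            have : Nat.primeCounting y = Nat.count Nat.Prime (y + 1) := rfl
            omega
          have h10 := Nat.nth_lt_of_lt_count h9
          omega
      have hcard := card_le_card hsub
      rw [card_image_of_injOn] at hcard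
      · exact hcard.trans (card_insert_le _ _)
      · intro a ha b hb hab
        rw [mem_coe, mem_filter, mem_Icc] at ha hb
        simp only at hab
        have := Nat.nth_injective Nat.infinite_setOfPred_prime hab
        omega
    have hL0 : 0 < Real.log y := by linarith
    have hpy : (1 : ℝ) < Nat.primeCounting y := by exact_mod_cast (by omega : 1 < Nat.primeCounting y)
    have hlogpi : Real.log (Nat.primeCounting y) ≤ Real.log y := by
      apply Real.log_le_log (by linarith)
      exact_mod_cast Pool.Agent.H197R2.PG.pi_le_self y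
    have hlogpi0 : 0 < Real.log (Nat.primeCounting y) := Real.log_pos hpy
    have h6 : (y : ℝ) / Real.log y ^ (B + 2) ≤ S.card + 1 := by
      have h7 : (cnt K (Nat.primeCounting y) : ℝ) ≤ S.card + 1 := by exact_mod_cast hinj
      refine le_trans ?_ (h1.trans h7)
      rw [div_le_div_iff₀ (by positivity) (by positivity)]
      calc (y : ℝ) * Real.log (Nat.primeCounting y) ^ B ≤
            (Nat.primeCounting y * Real.log y ^ 2) * Real.log y ^ B := by
              apply mul_le_mul h2 _ (by positivity) (by positivity)
              exact pow_le_pow_left₀ hlogpi0.le hlogpi _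
        _ = Nat.primeCounting y * Real.log y ^ (B + 2) := by ring
    have h8 : (2 : ℝ) ≤ S.card + 1 := by
      refine le_trans ?_ h6
      rw [le_div_iff₀ (by positivity)]
      exact h4
    rw [div_le_iff₀ (by positivity)] at h6
    calc (y : ℝ) ≤ (S.card + 1) * Real.log y ^ (B + 2) := h6
      _ ≤ (S.card * Real.log y) * Real.log y ^ (B + 2) := by
          apply mul_le_mul_of_nonneg_right _ (by positivity)
          nlinarith
      _ = S.card * Real.log y ^ (B + 3) := by ring
  obtain ⟨c, hc, x0, hx0⟩ := Pool.Agent.H197R2.PG.romanoff (B + 3) _ hA hd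
  refine ⟨c, hc, eventually_atTop.2 ⟨x0, fun x hx => ?_⟩⟩
  obtain ⟨T, hT1, hT2, hT3⟩ := hx0 x hx
  rw [← mul_div_assoc]
  refine hT3.trans ?_
  apply Nat.cast_le.2
  apply card_le_card
  intro n hn
  obtain ⟨a, ⟨ha1, ha2, ha3⟩, q, hq, hqa⟩ := hT2 n hn
  unfold rep
  rw [mem_filter]
  refine ⟨hT1 hn, a, ha1, ?_, ha3, ?_⟩
  · have := hq.pos
    omega
  · have : 2 * n - a = q := by omega
    rw [this]
    exact hq

/-- **Index sets as large as the set of the primes.**
(1) Let `K` be any set of integers with at least `t / (log t) ^ B` elements up to `t`, for all large `t`.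
Then for some `c > 0` and all large `x` at least `c x / log log log log x` of the integers `n ≤ x` have a
prime `p < 2 n` with `π(p) ∈ K` for which `2 n - p` is prime.
(2) This is best possible even for sets with the counting function of the primes: there are a set `K` and a
constant `C` such that, for every `A` and all large `t`, the number of the elements of `K` up to `t` differs
from `π(t)` by at most `t / (log t) ^ A`, whereas for all large `x` at most `C x / log log log log x` of the
integers `n ≤ x` have such a prime `p`. -/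
theorem result :
    (∀ (B : ℕ) (K : Set ℕ), (∀ᶠ t : ℕ in atTop, (t : ℝ) / Real.log t ^ B ≤ count K t) →
      ∃ c : ℝ, 0 < c ∧ ∀ᶠ x : ℕ in atTop,
        c * (x / Real.log (Real.log (Real.log (Real.log x)))) ≤ represented K x) ∧
    ∃ (K : Set ℕ) (C : ℝ),
      (∀ A : ℕ, ∀ᶠ t : ℕ in atTop,
        |(count K t : ℝ) - Nat.primeCounting t| ≤ t / Real.log t ^ A) ∧
      ∀ᶠ x : ℕ in atTop,
        (represented K x : ℝ) ≤ C * (x / Real.log (Real.log (Real.log (Real.log x)))) := by
  constructor
  · intro B K h
    simp only [count_eq] at h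
    simp only [represented_eq]
    exact lower B K h
  · obtain ⟨C, -, hC⟩ := Pool.Agent.Y886.IXS.upper
    refine ⟨Pool.Agent.Y886.IXS.K, C, fun A => ?_, ?_⟩
    · filter_upwards [Pool.Agent.Y886.IXS.cnt_K_ge A] with t ht
      rw [count_eq]
      have h1 : (Pool.Agent.Y886.IXS.cnt Pool.Agent.Y886.IXS.K t : ℝ) ≤ Nat.primeCounting t := by
        exact_mod_cast Pool.Agent.Y886.IXS.cnt_K_le t
      have hl : 0 ≤ Real.log t := Real.log_natCast_nonneg t
      have h2 : 0 ≤ (t : ℝ) / Real.log t ^ A := by positivity
      rw [abs_le]
      constructor <;> linarith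
    · filter_upwards [hC] with x hx
      rw [represented_eq]
      refine (hx _ Pool.Agent.Y886.IXS.K_sub).trans (le_of_eq ?_)
      ring

end Pool.Agent.Results.MP_5d7b92_nt.SharpOrderForIndexSets
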